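import Pool.Agent.Helper15_NJ.Arr

/-!
# NJ, module ARK: infinitely many trivial twists of type K
-/

set_option autoImplicit false

namespace Pool.Agent.NJ.H15

theorem ark (h1 : DKBStmt) (h2 : DLBStmt) (h3 : DMBStmt) (h4 : EXKStmt) (h5 : EXLStmt) :
    ARKStmt := by
  intro k hk
  obtain ⟨k₀, m, hsq, hm, rfl⟩ := exists_sqfree k hk
  have hk0 : k₀ ≠ 0 := hsq.ne_zero
  have hk0q : (k₀ : ℚ) ≠ 0 := by exact_mod_cast hk0
  apply infinite_of_num
  intro N
  by_cases hk1 : k₀ = 1 ∨ k₀ = -1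
  · obtain ⟨p₁, p₂, p₃, hrec, hN⟩ := h5 N
    have hp1 : (p₁ : ℚ) ≠ 0 := by exact_mod_cast hrec.pr1.ne_zero
    have hp3 : (p₃ : ℚ) ≠ 0 := by exact_mod_cast hrec.pr3.ne_zero
    have hp2 : (p₂ : ℚ) = 2 * p₁ + p₃ := by exact_mod_cast hrec.h2
    refine ⟨((p₁ * 2 : ℤ) / ((p₃ : ℤ) : ℤ) : ℚ), ?_, p₁, hN, ?_, ?_⟩
    · rcases hk1 with rfl | rfl
      · refine triv_of_scale (c := p₃ ^ 2 / m) (by positivity) ?_ ?_ (h2 p₁ p₂ p₃ hrec)
        · rw [hp2]
          push_cast
          field_simp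
          ring
        · rw [hp2]
          push_cast
          field_simp
          ring
      · refine triv_of_scale (c := p₃ ^ 2 / m) (by positivity) ?_ ?_ (h3 p₁ p₂ p₃ hrec)
        · rw [hp2]
          push_cast
          field_simp
          ring
        · rw [hp2]
          push_cast
          field_simp
          ring
    · exact dvd_num hrec.pr1 _ _ (not_dvd_of hrec.pr1 hrec.pr3 hrec.ne)
    · push_cast
      exact div_ne_zero (mul_ne_zero hp1 (by norm_num)) hp3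
  · push Not at hk1
    obtain ⟨p₁, p₂, p₃, hrec, hN⟩ := h4 k₀ hsq hk1.1 hk1.2 N
    have hp1 : (p₁ : ℚ) ≠ 0 := by exact_mod_cast hrec.pr1.ne_zero
    have hp3 : (p₃ : ℚ) ≠ 0 := by exact_mod_cast hrec.pr3.ne_zero
    have hp2 : (p₂ : ℚ) = p₁ + 8 * k₀ * p₃ := by exact_mod_cast hrec.h2
    refine ⟨((p₁ * 1 : ℤ) / ((8 * k₀ * p₃ : ℤ) : ℤ) : ℚ), ?_, p₁, hN, ?_, ?_⟩
    · refine triv_of_scale (c := 32 * k₀ * p₃ ^ 2 / m) (by positivity) ?_ ?_
        (h1 k₀ p₁ p₂ p₃ hrec)
      · rw [hp2]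
        push_cast
        field_simp
        ring
      · rw [hp2]
        push_cast
        field_simp
        ring
    · apply dvd_num hrec.pr1
      have hpz : Prime (p₁ : ℤ) := Nat.prime_iff_prime_int.mp hrec.pr1
      intro hd
      rcases hpz.dvd_or_dvd hd with hd | hd
      · rcases hpz.dvd_or_dvd hd with hd | hd
        · exact not_dvd_eight hrec.pr1 (two_lt_of_mod (Or.inl hrec.m1)) hd
        · exact not_dvd_small hk0 hrec.big1 hd
      · exact not_dvd_of hrec.pr1 hrec.pr3 hrec.ne hd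
    · push_cast
      apply div_ne_zero
      · exact mul_ne_zero hp1 (by norm_num)
      · positivity

end Pool.Agent.NJ.H15
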