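import Pool.Agent.Helper32_NJ.Stmts

/-!
# NJ, modules ARR and ARK: infinitely many trivial twists of the types R and K
-/

set_option autoImplicit false

namespace Pool.Agent.NJ.H15

/-- `Triv` is invariant under scaling by a nonzero square (one direction). -/
theorem triv_of_scale {e₂ e₃ c f₂ f₃ : ℚ} (hc : c ≠ 0) (h2 : f₂ = c ^ 2 * e₂)
    (h3 : f₃ = c ^ 2 * e₃) (h : Triv f₂ f₃) : Triv e₂ e₃ := by
  intro X Y hXY
  have h4 : c ^ 3 * Y = 0 := by
    apply h (c ^ 2 * X) (c ^ 3 * Y)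
    rw [h2, h3]
    linear_combination c ^ 6 * hXY
  exact (mul_eq_zero.mp h4).resolve_left (pow_ne_zero 3 hc)

/-- every nonzero rational is a squarefree integer times a nonzero square -/
theorem exists_sqfree (k : ℚ) (hk : k ≠ 0) : ∃ (k₀ : ℤ) (m : ℚ), Squarefree k₀ ∧ m ≠ 0 ∧
    k = k₀ * m ^ 2 := by
  have hn : k.num * k.den ≠ 0 := mul_ne_zero (Rat.num_ne_zero.mpr hk) (by exact_mod_cast k.den_nz)
  obtain ⟨a, b, hab, hsq⟩ := Nat.sq_mul_squarefree (k.num * k.den).natAbs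
  have hb : b ≠ 0 := by
    rintro rfl
    rw [zero_pow two_ne_zero, zero_mul] at hab
    exact hn (Int.natAbs_eq_zero.mp hab.symm)
  have hd : (k.den : ℚ) ≠ 0 := by exact_mod_cast k.den_nz
  have hkk : k * (k.den : ℚ) ^ 2 = ((k.num * k.den : ℤ) : ℚ) := by
    have := Rat.mul_den_eq_num k
    push_cast
    rw [pow_two, ← mul_assoc, this]
  have habz : (((k.num * k.den).natAbs : ℕ) : ℚ) = (b : ℚ) ^ 2 * a := by
    rw [← hab]; push_cast; ring
  rcases Int.natAbs_eq (k.num * k.den) with h | h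
  · refine ⟨a, b / k.den, ?_, div_ne_zero (by exact_mod_cast hb) hd, ?_⟩
    · exact Int.squarefree_natAbs.mp (by simpa using hsq)
    · have h1 : ((k.num * k.den : ℤ) : ℚ) = (b : ℚ) ^ 2 * a := by
        rw [h, ← habz]; push_cast; simp
      rw [h1] at hkk
      field_simp
      push_cast
      linear_combination hkk
  · refine ⟨-a, b / k.den, ?_, div_ne_zero (by exact_mod_cast hb) hd, ?_⟩
    · exact Int.squarefree_natAbs.mp (by simpa using hsq)
    · have h1 : ((k.num * k.den : ℤ) : ℚ) = -((b : ℚ) ^ 2 * a) := by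
        rw [h, ← habz]; push_cast; simp
      rw [h1] at hkk
      field_simp
      push_cast
      linear_combination hkk

/-- a set of rationals which contains elements whose numerator is divisible by arbitrarily
large primes is infinite -/
theorem infinite_of_num (S : Set ℚ) (h : ∀ N : ℕ, ∃ r ∈ S, ∃ p : ℕ, N < p ∧ (p : ℤ) ∣ r.num ∧
    r ≠ 0) : S.Infinite := by
  intro hfin
  obtain ⟨N, hN⟩ : ∃ N : ℕ, ∀ r ∈ S, r.num.natAbs ≤ N := by
    obtain ⟨N, hN⟩ := (hfin.image (fun r : ℚ => r.num.natAbs)).bddAbove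
    exact ⟨N, fun r hr => hN ⟨r, hr, rfl⟩⟩
  obtain ⟨r, hr, p, hp, hdvd, hr0⟩ := h N
  have h1 : p ≤ r.num.natAbs := by
    apply Nat.le_of_dvd
    · exact Int.natAbs_pos.mpr (Rat.num_ne_zero.mpr hr0)
    · exact Int.natCast_dvd.mp hdvd
  exact absurd (h1.trans (hN r hr)) (by omega)

/-- the numerator of `p a / b` is divisible by the prime `p` if `b` is not -/
theorem dvd_num {p : ℕ} (hp : p.Prime) (a b : ℤ) (hb : ¬ (p : ℤ) ∣ b) :
    (p : ℤ) ∣ ((p * a : ℤ) / (b : ℤ) : ℚ).num := by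
  have hb0 : b ≠ 0 := by rintro rfl; exact hb (dvd_zero _)
  set r : ℚ := ((p * a : ℤ) / (b : ℤ) : ℚ) with hr
  have h1 : (r.num : ℚ) * b = (p * a : ℤ) * r.den := by
    have hbq : (b : ℚ) ≠ 0 := by exact_mod_cast hb0
    have h2 : r * r.den = r.num := Rat.mul_den_eq_num r
    rw [← h2, hr]
    field_simp
  have h3 : r.num * b = p * a * r.den := by exact_mod_cast h1
  have hpz : Prime (p : ℤ) := Nat.prime_iff_prime_int.mp hp
  have h4 : (p : ℤ) ∣ r.num * b := by rw [h3, mul_assoc]; exact dvd_mul_right _ _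
  exact (hpz.dvd_or_dvd h4).resolve_right hb

theorem two_lt_of_mod {p : ℕ} (h : p % 8 = 5 ∨ p % 8 = 3) : 2 < p := by omega

theorem not_dvd_of {p q : ℕ} (hp : p.Prime) (hq : q.Prime) (hne : p ≠ q) : ¬ (p : ℤ) ∣ (q : ℤ) := by
  intro h
  have : p ∣ q := by exact_mod_cast h
  exact hne ((Nat.prime_dvd_prime_iff_eq hp hq).mp this)

theorem not_dvd_eight {p : ℕ} (hp : p.Prime) (h : 2 < p) : ¬ (p : ℤ) ∣ 8 := by
  intro hd
  have h1 : p ∣ 2 ^ 3 := by
    have : p ∣ 8 := by exact_mod_cast hd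
    simpa using this
  have h2 := hp.dvd_of_dvd_pow h1
  have h3 := Nat.le_of_dvd (by norm_num) h2
  omega

theorem not_dvd_small {p : ℕ} {k : ℤ} (hk : k ≠ 0) (h : k.natAbs < p) : ¬ (p : ℤ) ∣ k := by
  intro hd
  have h1 : p ∣ k.natAbs := Int.natCast_dvd.mp hd
  exact absurd (Nat.le_of_dvd (Int.natAbs_pos.mpr hk) h1) (by omega)

theorem arr (h1 : DRBStmt) (h2 : EXRStmt) : ARRStmt := by
  intro k hk
  obtain ⟨k₀, m, hsq, hm, rfl⟩ := exists_sqfree k hk
  have hk0 : k₀ ≠ 0 := hsq.ne_zero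
  have hk0q : (k₀ : ℚ) ≠ 0 := by exact_mod_cast hk0
  apply infinite_of_num
  intro N
  obtain ⟨p₁, p₂, p₃, hrec, hN⟩ := h2 k₀ hsq N
  have hp1 : (p₁ : ℚ) ≠ 0 := by exact_mod_cast hrec.pr1.ne_zero
  have hp3 : (p₃ : ℚ) ≠ 0 := by exact_mod_cast hrec.pr3.ne_zero
  have ht := h1 k₀ p₁ p₂ p₃ hrec
  refine ⟨((p₁ * (-1) : ℤ) / ((8 * k₀ * p₃ : ℤ) : ℤ) : ℚ), ?_, p₁, hN, ?_, ?_⟩
  · refine triv_of_scale (c := 4 * p₃ / m) (by positivity) ?_ ?_ ht
    · push_cast
      field_simp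
      ring
    · push_cast
      field_simp
      ring
  · apply dvd_num hrec.pr1
    have hpz : Prime (p₁ : ℤ) := Nat.prime_iff_prime_int.mp hrec.pr1
    intro hd
    rcases hpz.dvd_or_dvd hd with hd | hd
    · rcases hpz.dvd_or_dvd hd with hd | hd
      · exact not_dvd_eight hrec.pr1 (two_lt_of_mod (Or.inl hrec.m1)) hd
      · exact not_dvd_small hk0 hrec.big1 hd
    · exact not_dvd_of hrec.pr1 hrec.pr3 hrec.ne hd
  · push_cast
    apply div_ne_zero
    · exact mul_ne_zero hp1 (by norm_num)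
    · positivity

end Pool.Agent.NJ.H15
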